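import Pool.Agent.Q211.Tipsy.Graph

set_option autoImplicit false
open Finset

namespace Pool.Agent.Q211.Tipsy

/-- level in the 60-ary tree -/
def lv : ℕ → ℕ
  | 0 => 0
  | (n + 1) => lv (n / 60) + 1
termination_by n => n

theorem lv_zero : lv 0 = 0 := by rw [lv]

theorem lv_succ (n : ℕ) : lv (n + 1) = lv (n / 60) + 1 := by rw [lv]

theorem lv_parent (n : ℕ) (hn : n ≠ 0) : lv n = lv ((n - 1) / 60) + 1 := by
  obtain ⟨k, rfl⟩ : ∃ k, n = k + 1 := ⟨n - 1, by omega⟩
  rw [lv_succ]
  rfl

theorem lv_le (n : ℕ) : lv n ≤ n := by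
  induction n using Nat.strong_induction_on with
  | _ n ih =>
    rcases Nat.eq_zero_or_pos n with rfl | hn
    · rw [lv_zero]
    · rw [lv_parent n hn.ne']
      have := ih ((n - 1) / 60) (by omega)
      omega

theorem pow_lv (n : ℕ) : ((5 : ℝ) / 4) ^ (lv n) ≤ n + 1 := by
  induction n using Nat.strong_induction_on with
  | _ n ih =>
    rcases Nat.eq_zero_or_pos n with rfl | hn
    · rw [lv_zero]
      simp
    · rw [lv_parent n hn.ne', pow_succ]
      have h1 := ih ((n - 1) / 60) (by omega)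
      have h2 : (((n - 1) / 60 : ℕ) : ℝ) ≤ (n - 1) / 60 := by
        have := @Nat.cast_div_le ℝ _ _ _ (n - 1) 60
        rw [Nat.cast_sub hn] at this
        simpa using this
      have h3 : (1 : ℝ) ≤ n := by exact_mod_cast hn
      nlinarith

/-- potential giving a lower bound of the distance to `(0, 0)` -/
def phi (a : ℕ × ℕ) : ℕ :=
  min (lv a.1 + a.2) (a.1 + 4 + ((3 * a.1 + 4 - a.2) + (a.2 - (3 * a.1 + 4))))

theorem phi_E (a b : ℕ × ℕ) (h : E a b) : phi a ≤ phi b + 1 ∧ phi b ≤ phi a + 1 := by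
  obtain ⟨n, i⟩ := a
  obtain ⟨m, j⟩ := b
  unfold E at h
  unfold phi
  simp only at h ⊢
  rcases h with ⟨rfl, rfl⟩ | ⟨rfl, rfl, hn, rfl⟩ | ⟨rfl, rfl, rfl⟩
  · omega
  · have h1 := lv_parent n hn
    have h2 := lv_le n
    have h3 := lv_le ((n - 1) / 60)
    omega
  · have h2 := lv_le n
    have h3 := lv_le (n + 1)
    omega

theorem phi_adj (a b : ℕ × ℕ) (h : Gr.Adj a b) : phi a ≤ phi b + 1 := by
  rcases h with h | h
  · exact (phi_E a b h).1
  · exact (phi_E b a h).2

theorem phi_walk {a b : ℕ × ℕ} (w : Gr.Walk a b) : phi a ≤ phi b + w.length := by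
  induction w with
  | nil => simp
  | cons h p ih =>
    have := phi_adj _ _ h
    rw [SimpleGraph.Walk.length_cons]
    omega

theorem phi_zero : phi (0, 0) = 0 := by
  unfold phi
  simp [lv_zero]

theorem phi_le_dist (a : ℕ × ℕ) : phi a ≤ Gr.dist a (0, 0) := by
  obtain ⟨w, hw⟩ := gr_connected.exists_walk_length_eq_dist a (0, 0)
  have := phi_walk w
  rw [phi_zero] at this
  omega

theorem dist_le (n i : ℕ) : Gr.dist (n, i) (0, 0) ≤ lv n + i := by
  have h0 : ∀ n, Gr.dist (n, 0) (0, 0) ≤ lv n := by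
    intro n
    induction n using Nat.strong_induction_on with
    | _ n ih =>
      rcases Nat.eq_zero_or_pos n with rfl | hn
      · simp
      · have h1 := ih ((n - 1) / 60) (by omega)
        have h2 : Gr.dist (n, 0) ((n - 1) / 60, 0) ≤ 1 := by
          have : Gr.Adj (n, 0) ((n - 1) / 60, 0) := by
            left
            right
            left
            exact ⟨rfl, rfl, hn.ne', rfl⟩
          exact (SimpleGraph.dist_eq_one_iff_adj.mpr this).le
        have h3 := gr_connected.dist_triangle (u := (n, 0)) (v := ((n - 1) / 60, 0)) (w := (0, 0))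
        rw [lv_parent n hn.ne']
        omega
  induction i with
  | zero => exact h0 n
  | succ i ih =>
    have h2 : Gr.dist (n, i + 1) (n, i) ≤ 1 := by
      have : Gr.Adj (n, i + 1) (n, i) := by
        right
        left
        simp
      exact (SimpleGraph.dist_eq_one_iff_adj.mpr this).le
    have h3 := gr_connected.dist_triangle (u := (n, i + 1)) (v := (n, i)) (w := (0, 0))
    omega

/-- distance to the root near the tree -/
theorem dist_eq (n i : ℕ) (hi : i ≤ n + 2) : Gr.dist (n, i) (0, 0) = lv n + i := by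
  refine le_antisymm (dist_le n i) ?_
  have h1 := phi_le_dist (n, i)
  have h2 := lv_le n
  unfold phi at h1
  simp only at h1
  omega

/-- allowed sober moves of a monotone strategy at a position near the tree: stay, or move towards
the root in the tree, or move back along the exit path -/
theorem allowed_tree (n : ℕ) (hn : n ≠ 0) (w : ℕ × ℕ) (hw : w = (n, 0) ∨ Gr.Adj (n, 0) w)
    (hd : Gr.dist w (0, 0) ≤ Gr.dist (n, 0) (0, 0)) : w = (n, 0) ∨ w = ((n - 1) / 60, 0) := by
  rcases hw with rfl | hw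
  · exact Or.inl rfl
  · right
    rw [dist_eq n 0 (by omega)] at hd
    obtain ⟨m, j⟩ := w
    rcases hw with h | h
    · rcases h with ⟨h1, h2⟩ | ⟨h1, h2, h3, h4⟩ | ⟨h1, h2, h3⟩
      · simp only at h1 h2
        subst h1 h2
        rw [dist_eq m (0 + 1) (by omega)] at hd
        omega
      · simp only at h1 h2 h3 h4
        rw [h2, h4]
      · simp only at h1
        omega
    · rcases h with ⟨h1, h2⟩ | ⟨h1, h2, h3, h4⟩ | ⟨h1, h2, h3⟩
      · simp only at h2
        omega
      · simp only at h1 h2 h3 h4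
        subst h1
        rw [dist_eq m 0 (by omega), lv_parent m h3, ← h4] at hd
        omega
      · simp only at h2
        omega

theorem allowed_path (n i : ℕ) (hi : i ≤ n) (w : ℕ × ℕ)
    (hw : w = (n, i + 1) ∨ Gr.Adj (n, i + 1) w)
    (hd : Gr.dist w (0, 0) ≤ Gr.dist (n, i + 1) (0, 0)) : w = (n, i + 1) ∨ w = (n, i) := by
  rcases hw with rfl | hw
  · exact Or.inl rfl
  · right
    rw [dist_eq n (i + 1) (by omega)] at hd
    obtain ⟨m, j⟩ := w
    rcases hw with h | h
    · rcases h with ⟨h1, h2⟩ | ⟨h1, h2, h3, h4⟩ | ⟨h1, h2, h3⟩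
      · simp only at h1 h2
        subst h1 h2
        rw [dist_eq m (i + 1 + 1) (by omega)] at hd
        omega
      · simp only at h1
        omega
      · simp only at h1
        omega
    · rcases h with ⟨h1, h2⟩ | ⟨h1, h2, h3, h4⟩ | ⟨h1, h2, h3⟩
      · simp only at h1 h2
        rw [h1, show i = j by omega]
      · simp only at h2
        omega
      · simp only at h2
        omega

/-- the superharmonic function for monotone strategies -/
noncomputable def hh (a : ℕ × ℕ) : ℝ := min 1 ((4 / 5 : ℝ) ^ (lv a.1) + a.2 / (a.1 + 2))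

theorem hh_le_one (a : ℕ × ℕ) : hh a ≤ 1 := min_le_left _ _

theorem hh_nonneg (a : ℕ × ℕ) : 0 ≤ hh a := by
  unfold hh
  positivity

theorem hh_zero : hh (0, 0) = 1 := by
  unfold hh
  simp [lv_zero]

theorem hh_start : hh (1, 0) = 4 / 5 := by
  unfold hh
  have : lv 1 = 1 := by rw [lv_parent 1 (by norm_num)]; simp [lv_zero]
  simp [this]
  norm_num

/-- superharmonicity along monotone moves -/
theorem hh_super (u w : ℕ × ℕ) (hw : w = u ∨ Gr.Adj u w) (hu : u ≠ (0, 0))
    (hd : Gr.dist w (0, 0) ≤ Gr.dist u (0, 0)) :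
    2 / 5 * hh w + 3 / 5 * avg hh u ≤ hh u := by
  obtain ⟨n, i⟩ := u
  by_cases h1 : hh (n, i) = 1
  · have h2 := hh_le_one w
    have h3 := avg_le hh 1 (n, i) fun w _ => hh_le_one w
    rw [h1]
    linarith
  have h2 : (4 / 5 : ℝ) ^ (lv n) + i / (n + 2) < 1 := by
    by_contra h
    exact h1 (min_eq_left (by push Not at h; exact h))
  have h3 : hh (n, i) = (4 / 5 : ℝ) ^ (lv n) + i / (n + 2) := min_eq_right h2.le
  have hpos : (0 : ℝ) < (4 / 5 : ℝ) ^ (lv n) := by positivity
  have hn2 : (0 : ℝ) < (n : ℝ) + 2 := by positivity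
  have hi : i ≤ n + 1 := by
    by_contra h
    have : (1 : ℝ) ≤ i / (n + 2) := by
      rw [le_div_iff₀ hn2]
      have : n + 2 ≤ i := by omega
      rw [one_mul]
      exact_mod_cast this
    linarith
  have hn : n ≠ 0 := by
    rintro rfl
    rw [lv_zero, pow_zero] at h2
    have : (0 : ℝ) ≤ i / ((0 : ℕ) + 2) := by positivity
    linarith
  rcases Nat.eq_zero_or_pos i with rfl | hipos
  · obtain ⟨k, rfl⟩ : ∃ k, n = k + 1 := ⟨n - 1, by omega⟩
    have hall := allowed_tree (k + 1) hn w hw hd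
    have hL := lv_succ k
    set L := lv (k / 60) with hLd
    have hq : (4 / 5 : ℝ) ^ (lv (k + 1)) = 4 / 5 * (4 / 5 : ℝ) ^ L := by rw [hL, pow_succ]; ring
    have hself : hh (k + 1, 0) = 4 / 5 * (4 / 5 : ℝ) ^ L := by
      rw [h3, hq]
      simp
    have hpar : hh (k / 60, 0) ≤ (4 / 5 : ℝ) ^ L := by
      refine (min_le_right _ _).trans ?_
      simp [hLd]
    have hchild : ∀ j ∈ Icc (60 * (k + 1) + 1) (60 * (k + 1) + 60),
        hh (j, 0) ≤ 4 / 5 * (4 / 5 * (4 / 5 : ℝ) ^ L) := by
      intro j hj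
      rw [mem_Icc] at hj
      refine (min_le_right _ _).trans ?_
      have : lv j = L + 1 + 1 := by
        rw [lv_parent j (by omega), show (j - 1) / 60 = k + 1 by omega, hL]
      simp only [this]
      rw [pow_succ, pow_succ]
      apply le_of_eq
      simp
      ring
    have hpath : hh (k + 1, 1) ≤ 2 * (4 / 5 * (4 / 5 : ℝ) ^ L) := by
      refine (min_le_right _ _).trans ?_
      have h5 := pow_lv (k + 1)
      rw [← hq]
      have h6 : (1 : ℝ) / ((k + 1 : ℕ) + 2) ≤ (4 / 5 : ℝ) ^ (lv (k + 1)) := by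
        have e : (4 / 5 : ℝ) ^ (lv (k + 1)) = 1 / (5 / 4 : ℝ) ^ (lv (k + 1)) := by
          rw [one_div, ← inv_pow]
          norm_num
        rw [e]
        refine one_div_le_one_div_of_le (by positivity) ?_
        linarith
      simp only [Nat.cast_one]
      linarith
    have hsum : ∑ j ∈ Icc (60 * (k + 1) + 1) (60 * (k + 1) + 60), hh (j, 0) ≤
        60 * (4 / 5 * (4 / 5 * (4 / 5 : ℝ) ^ L)) := by
      refine (sum_le_sum hchild).trans ?_
      rw [sum_const, Nat.card_Icc, nsmul_eq_mul]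
      have : 60 * (k + 1) + 60 + 1 - (60 * (k + 1) + 1) = 60 := by omega
      rw [this]
      norm_num
    have hav : avg hh (k + 1, 0) ≤ ((4 / 5 : ℝ) ^ L + 2 * (4 / 5 * (4 / 5 : ℝ) ^ L) +
        60 * (4 / 5 * (4 / 5 * (4 / 5 : ℝ) ^ L))) / 62 := by
      rw [avg_tree]
      gcongr
    have hP : (0 : ℝ) < (4 / 5 : ℝ) ^ L := by positivity
    have hw' : hh w ≤ (4 / 5 : ℝ) ^ L := by
      rcases hall with rfl | rfl
      · rw [hself]
        linarith
      · simpa using hpar
    rw [hself]
    linarith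
  · obtain ⟨k, rfl⟩ : ∃ k, i = k + 1 := ⟨i - 1, by omega⟩
    have hall := allowed_path n k (by omega) w hw hd
    have hav : avg hh (n, k + 1) ≤ hh (n, k + 1) := by
      rw [avg_path hh n k (by omega), h3]
      have a1 : hh (n, k) ≤ (4 / 5 : ℝ) ^ (lv n) + k / (n + 2) := min_le_right _ _
      have a2 : hh (n, k + 2) ≤ (4 / 5 : ℝ) ^ (lv n) + (k + 2 : ℕ) / (n + 2) := min_le_right _ _
      have e : ((k : ℝ) / (n + 2) + ((k + 2 : ℕ) : ℝ) / (n + 2)) / 2 = ((k + 1 : ℕ) : ℝ) / (n + 2) := by
        field_simp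
        push_cast
        ring
      linarith
    have hw' : hh w ≤ hh (n, k + 1) := by
      rcases hall with rfl | rfl
      · exact le_rfl
      · rw [h3]
        refine (min_le_right _ _).trans ?_
        simp only
        gcongr
        simp
    linarith

end Pool.Agent.Q211.Tipsy
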