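import Mathlib

set_option autoImplicit false
open scoped Classical ENNReal NNReal
open MeasureTheory

namespace Pool.Agent.Q211.Tipsy

variable {V : Type} (G : SimpleGraph V) [G.LocallyFinite]

/-- One-step transition probability of the tipsy cop and robber game from the position `x` to the
position `y` (a position is the pair of the places of the cop and of the robber), when the sober
moves at this time are given by `cs` and `rs`. -/
noncomputable def stepProb (c r tc tr : ℝ≥0) (cs rs : V → V → V) (x y : V × V) : ℝ≥0∞ :=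
  (c : ℝ≥0∞) * (if y = (cs x.1 x.2, x.2) then 1 else 0)
    + (r : ℝ≥0∞) * (if y = (x.1, rs x.1 x.2) then 1 else 0)
    + (tc : ℝ≥0∞) * (if y.2 = x.2 ∧ G.Adj x.1 y.1 then ((G.degree x.1 : ℝ≥0∞))⁻¹ else 0)
    + (tr : ℝ≥0∞) * (if y.1 = x.1 ∧ G.Adj x.2 y.2 then ((G.degree x.2 : ℝ≥0∞))⁻¹ else 0)

/-- A cop strategy: at each time the cop stays or moves to a neighbour. -/
def IsCopStrat (G : SimpleGraph V) (cs : ℕ → V → V → V) : Prop :=
  ∀ s u v, cs s u v = u ∨ G.Adj u (cs s u v)

/-- A robber strategy: at each time the robber moves to a neighbour. -/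
def IsRobStrat (G : SimpleGraph V) (rs : ℕ → V → V → V) : Prop :=
  ∀ s u v, G.Adj v (rs s u v)

/-- Monotone cop strategies: no sober move increases the distance to the robber. -/
def IsMonotone (G : SimpleGraph V) (cs : ℕ → V → V → V) : Prop :=
  ∀ s u v, G.dist (cs s u v) v ≤ G.dist u v

/-- `X` is the game process with the given parameters, strategies and starting positions: it
starts at `(u0, v0)` and, given the past up to time `n`, the next position has the law `stepProb`
of the present one. -/
structure IsGame (c r tc tr : ℝ≥0) (cs rs : ℕ → V → V → V) (u0 v0 : V)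
    {Ω : Type} [MeasurableSpace Ω] (P : Measure Ω) (X : ℕ → Ω → V × V) : Prop where
  meas : ∀ (n : ℕ) (A : Set (V × V)), MeasurableSet (X n ⁻¹' A)
  init : ∀ᵐ ω ∂P, X 0 ω = (u0, v0)
  step : ∀ (n : ℕ) (A : Set (ℕ → V × V)),
    (∀ h h' : ℕ → V × V, (∀ i ≤ n, h i = h' i) → (h ∈ A ↔ h' ∈ A)) →
    ∀ x y : V × V,
      P {ω | (fun i => X i ω) ∈ A ∧ X n ω = x ∧ X (n + 1) ω = y} =
        P {ω | (fun i => X i ω) ∈ A ∧ X n ω = x} * stepProb G c r tc tr (cs n) (rs n) x y

/-- The cop strategy `cs` is winning from the starting positions `(u0, v0)`: against every robber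
strategy the cop wins almost surely. -/
def CopWinning (c r tc tr : ℝ≥0) (u0 v0 : V) (cs : ℕ → V → V → V) : Prop :=
  ∀ rs : ℕ → V → V → V, IsRobStrat G rs →
    ∀ (Ω : Type) [MeasurableSpace Ω] (P : Measure Ω) [IsProbabilityMeasure P]
      (X : ℕ → Ω → V × V), IsGame G c r tc tr cs rs u0 v0 P X →
      ∀ᵐ ω ∂P, ∃ s, (X s ω).1 = (X s ω).2

/-- Q1: whenever the cop has a winning strategy she also has a monotone winning strategy.
(A connected locally finite graph has countably many vertices.) -/
def Q1 : Prop :=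
  ∀ (V : Type) [Countable V] (G : SimpleGraph V) [G.LocallyFinite], G.Connected →
    ∀ c r tc tr : ℝ≥0, c + r + tc + tr = 1 → ∀ u0 v0 : V,
      (∃ cs, IsCopStrat G cs ∧ CopWinning G c r tc tr u0 v0 cs) →
      ∃ cs, IsCopStrat G cs ∧ IsMonotone G cs ∧ CopWinning G c r tc tr u0 v0 cs

end Pool.Agent.Q211.Tipsy
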