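import Pool.Agent.Q211.Tipsy.Step

set_option autoImplicit false
open scoped Classical ENNReal NNReal
open MeasureTheory ProbabilityTheory Finset

namespace Pool.Agent.Q211.Tipsy

variable {V : Type} {G : SimpleGraph V} [G.LocallyFinite]
  [Countable V] [MeasurableSpace V] [MeasurableSingletonClass V]

theorem init_aux {S : Type} [MeasurableSpace S] [MeasurableSingletonClass S] [Countable S]
    (κ : (n : ℕ) → Kernel (Π _ : Iic n, S) S) [∀ n, IsMarkovKernel (κ n)] (x0 : S) :
    ∀ᵐ ω ∂(Kernel.trajMeasure (X := fun _ => S) (Measure.dirac x0) κ), ω 0 = x0 := by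
  have h1 : (Kernel.trajMeasure (X := fun _ => S) (Measure.dirac x0) κ).map
      (Preorder.frestrictLe 0) = Measure.dirac
        ((MeasurableEquiv.piUnique (fun _ : Iic 0 => S)).symm x0) := by
    rw [Kernel.trajMeasure, Measure.map_comp _ _ (by fun_prop), Kernel.traj_map_frestrictLe,
      Kernel.partialTraj_self, Measure.id_comp]
    exact Measure.map_dirac' (MeasurableEquiv.measurable _) _
  have h2 : ∀ᵐ y ∂((Kernel.trajMeasure (X := fun _ => S) (Measure.dirac x0) κ).map
      (Preorder.frestrictLe 0)), y ⟨0, mem_Iic.mpr le_rfl⟩ = x0 := by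
    rw [h1, ae_dirac_iff]
    · rfl
    · exact (Set.to_countable _).measurableSet
  exact ae_of_ae_map (by fun_prop) h2

/-- the transition measure -/
noncomputable def stepMeas (c r tc tr : ℝ≥0) (cs rs : V → V → V) (x : V × V) : Measure (V × V) :=
  Measure.sum fun y => stepProb G c r tc tr cs rs x y • Measure.dirac y

theorem stepMeas_apply (c r tc tr : ℝ≥0) (cs rs : V → V → V) (x : V × V) (A : Set (V × V)) :
    stepMeas (G := G) c r tc tr cs rs x A =
      ∑' y, stepProb G c r tc tr cs rs x y * A.indicator 1 y := by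
  unfold stepMeas
  rw [Measure.sum_apply _ (Set.to_countable A).measurableSet]
  refine tsum_congr fun y => ?_
  rw [Measure.smul_apply, Measure.dirac_apply' _ (Set.to_countable A).measurableSet, smul_eq_mul]

theorem stepMeas_singleton (c r tc tr : ℝ≥0) (cs rs : V → V → V) (x y : V × V) :
    stepMeas (G := G) c r tc tr cs rs x {y} = stepProb G c r tc tr cs rs x y := by
  rw [stepMeas_apply, tsum_eq_single y]
  · simp
  · intro b hb
    simp [hb]

theorem stepMeas_univ (c tc : ℝ≥0) (hc : c + tc = 1) (hdeg : ∀ u, G.degree u ≠ 0)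
    (cs rs : V → V → V) (x : V × V) :
    stepMeas (G := G) c 0 tc 0 cs rs x Set.univ = 1 := by
  rw [stepMeas_apply]
  have := tsum_static (G := G) c tc cs rs x.1 x.2 (fun _ => 1)
  simp only [Set.indicator_univ, Pi.one_apply]
  rw [show x = (x.1, x.2) from rfl, this]
  simp only [mul_one, sum_const, SimpleGraph.card_neighborFinset_eq_degree, nsmul_eq_mul]
  rw [ENNReal.inv_mul_cancel (by exact_mod_cast hdeg x.1) (ENNReal.natCast_ne_top _), mul_one]
  exact_mod_cast hc

/-- transition kernels of the history -/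
noncomputable def ker (c r tc tr : ℝ≥0) (cs rs : ℕ → V → V → V) (n : ℕ) :
    Kernel (Π _ : Iic n, V × V) (V × V) :=
  Kernel.ofFunOfCountable fun x =>
    stepMeas (G := G) c r tc tr (cs n) (rs n) (x ⟨n, mem_Iic.mpr le_rfl⟩)

theorem ker_apply (c r tc tr : ℝ≥0) (cs rs : ℕ → V → V → V) (n : ℕ) (x : Π _ : Iic n, V × V) :
    ker (G := G) c r tc tr cs rs n x =
      stepMeas (G := G) c r tc tr (cs n) (rs n) (x ⟨n, mem_Iic.mpr le_rfl⟩) := rfl

theorem exists_game (c tc : ℝ≥0) (hc : c + tc = 1) (hdeg : ∀ u, G.degree u ≠ 0)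
    (cs rs : ℕ → V → V → V) (u0 v0 : V) :
    ∃ P : Measure (ℕ → V × V), IsProbabilityMeasure P ∧
      IsGame G c 0 tc 0 cs rs u0 v0 P (fun n ω => ω n) := by
  have hM : ∀ n, IsMarkovKernel (ker (G := G) c 0 tc 0 cs rs n) := fun n => ⟨fun x => ⟨by
    rw [ker_apply]
    exact stepMeas_univ c tc hc hdeg _ _ _⟩⟩
  set P : Measure (ℕ → V × V) :=
    Kernel.trajMeasure (X := fun _ => V × V) (Measure.dirac (u0, v0))
      (ker (G := G) c 0 tc 0 cs rs) with hP
  have hPprob : IsProbabilityMeasure P := by rw [hP]; infer_instance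
  have hmeasr : ∀ n : ℕ, Measurable (fun x : ℕ → V × V =>
      ((Preorder.frestrictLe n x : Π _ : Iic n, V × V), x (n + 1))) := by
    intro n
    fun_prop
  have hkey : ∀ (n : ℕ) (s : Set ((Π _ : Iic n, V × V) × (V × V))),
      P {x : ℕ → V × V | ((Preorder.frestrictLe n x : Π _ : Iic n, V × V), x (n + 1)) ∈ s} =
      ∫⁻ x', ker (G := G) c 0 tc 0 cs rs n x' (Prod.mk x' ⁻¹' s)
        ∂(P.map (Preorder.frestrictLe n)) := by
    intro n s
    have hs : MeasurableSet s := (Set.to_countable s).measurableSet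
    rw [← Measure.compProd_apply hs, hP,
      Kernel.map_frestrictLe_trajMeasure_compProd_eq_map_trajMeasure,
      Measure.map_apply (hmeasr n) hs]
    rfl
  refine ⟨P, hPprob, ⟨fun n A => ?_, ?_, ?_⟩⟩
  · exact measurable_pi_apply n (Set.to_countable A).measurableSet
  · exact init_aux _ _
  · intro n A hA x y
    set S : Set (Π _ : Iic n, V × V) :=
      {x' | (fun i => if h : i ≤ n then x' ⟨i, mem_Iic.mpr h⟩ else x) ∈ A ∧
        x' ⟨n, mem_Iic.mpr le_rfl⟩ = x} with hS
    have hSm : MeasurableSet S := (Set.to_countable S).measurableSet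
    have hiff : ∀ ω : ℕ → V × V, ((fun i => ω i) ∈ A ∧ ω n = x) ↔
        (Preorder.frestrictLe n ω : Π _ : Iic n, V × V) ∈ S := by
      intro ω
      rw [hS, Set.mem_ofPred_eq]
      refine and_congr (hA _ _ fun i hi => ?_) Iff.rfl
      rw [dif_pos hi]
      rfl
    have e1 : {ω : ℕ → V × V | (fun i => ω i) ∈ A ∧ ω n = x ∧ ω (n + 1) = y} =
        {ω : ℕ → V × V | ((Preorder.frestrictLe n ω : Π _ : Iic n, V × V), ω (n + 1)) ∈
          S ×ˢ {y}} := by
      ext ω
      simp only [Set.mem_ofPred_eq, Set.mem_prod, Set.mem_singleton_iff]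
      rw [← hiff, and_assoc]
    have e2 : {ω : ℕ → V × V | (fun i => ω i) ∈ A ∧ ω n = x} = Preorder.frestrictLe n ⁻¹' S := by
      ext ω
      exact hiff ω
    rw [e1, e2, hkey]
    have e3 : ∀ x' : Π _ : Iic n, V × V,
        ker (G := G) c 0 tc 0 cs rs n x' (Prod.mk x' ⁻¹' (S ×ˢ {y})) =
        S.indicator (fun _ => stepProb G c 0 tc 0 (cs n) (rs n) x y) x' := by
      intro x'
      by_cases hx : x' ∈ S
      · rw [Set.indicator_of_mem hx, ker_apply]
        have : Prod.mk x' ⁻¹' (S ×ˢ {y}) = {y} := by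
          ext w
          simp [hx]
        rw [this, stepMeas_singleton, hx.2]
      · rw [Set.indicator_of_notMem hx]
        have : Prod.mk x' ⁻¹' (S ×ˢ {y}) = ∅ := by
          ext w
          simp [hx]
        rw [this, measure_empty]
    rw [lintegral_congr e3, lintegral_indicator hSm, setLIntegral_const,
      Measure.map_apply (by fun_prop) hSm, mul_comm]

end Pool.Agent.Q211.Tipsy
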