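import Pool.Agent.Q211.Tipsy.Graph

set_option autoImplicit false
open Finset Filter Topology

namespace Pool.Agent.Q211.Tipsy

/-- the sober moves of the good strategy -/
def sig (a : ℕ × ℕ) : ℕ × ℕ :=
  if a.1 = 0 then (0, a.2 - 1)
  else if a.2 < 3 * a.1 + 4 then (a.1, a.2 + 1)
  else if a.2 = 3 * a.1 + 4 then (a.1 - 1, 3 * (a.1 - 1) + 4)
  else (a.1, a.2 - 1)

theorem sig_ok (a : ℕ × ℕ) : sig a = a ∨ Gr.Adj a (sig a) := by
  obtain ⟨n, i⟩ := a
  unfold sig
  simp only
  by_cases h1 : n = 0
  · subst h1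
    rw [if_pos rfl]
    rcases Nat.eq_zero_or_pos i with rfl | hi
    · left
      rfl
    · right
      right
      left
      exact ⟨rfl, by simp only; omega⟩
  rw [if_neg h1]
  right
  split_ifs with h2 h3
  · left
    left
    exact ⟨rfl, rfl⟩
  · right
    right
    right
    refine ⟨rfl, ?_, ?_⟩ <;> simp only <;> omega
  · right
    left
    refine ⟨rfl, ?_⟩
    simp only
    omega

/-- probability of not having reached the root within `k` steps -/
noncomputable def wk : ℕ → ℕ × ℕ → ℝ
  | 0 => fun a => if a = (0, 0) then 0 else 1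
  | (k + 1) => fun a => if a = (0, 0) then 0 else 2 / 5 * wk k (sig a) + 3 / 5 * avg (wk k) a

theorem wk_root (k : ℕ) : wk k (0, 0) = 0 := by
  cases k <;> simp [wk]

theorem wk_nonneg (k : ℕ) : ∀ a, 0 ≤ wk k a := by
  induction k with
  | zero => intro a; unfold wk; split_ifs <;> norm_num
  | succ k ih =>
    intro a
    unfold wk
    split_ifs
    · exact le_rfl
    · have := ih (sig a)
      have := avg_nonneg (wk k) a ih
      positivity

theorem wk_le_one (k : ℕ) : ∀ a, wk k a ≤ 1 := by
  induction k with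
  | zero => intro a; unfold wk; split_ifs <;> norm_num
  | succ k ih =>
    intro a
    unfold wk
    split_ifs
    · norm_num
    · have := ih (sig a)
      have := avg_le (wk k) 1 a fun w _ => ih w
      linarith

theorem wk_anti (k : ℕ) : ∀ a, wk (k + 1) a ≤ wk k a := by
  induction k with
  | zero =>
    intro a
    by_cases h : a = (0, 0)
    · rw [h, wk_root, wk_root]
    · have : wk 0 a = 1 := by simp [wk, h]
      rw [this]
      exact wk_le_one _ _
  | succ k ih =>
    intro a
    by_cases h : a = (0, 0)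
    · rw [h, wk_root, wk_root]
    · have e : ∀ j, wk (j + 1) a = 2 / 5 * wk j (sig a) + 3 / 5 * avg (wk j) a := by
        intro j
        rw [wk]
        simp [h]
      rw [e, e]
      have h1 := ih (sig a)
      have h2 := avg_mono _ _ a fun w _ => ih w
      linarith

/-- the limit -/
noncomputable def wl (a : ℕ × ℕ) : ℝ := ⨅ k, wk k a

theorem wk_tendsto (a : ℕ × ℕ) : Tendsto (fun k => wk k a) atTop (𝓝 (wl a)) :=
  tendsto_atTop_ciInf (antitone_nat_of_succ_le fun k => wk_anti k a)
    ⟨0, by rintro _ ⟨k, rfl⟩; exact wk_nonneg k a⟩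

theorem wl_root : wl (0, 0) = 0 := by
  unfold wl
  simp [wk_root]

theorem wl_nonneg (a : ℕ × ℕ) : 0 ≤ wl a :=
  ge_of_tendsto (wk_tendsto a) (Eventually.of_forall fun k => wk_nonneg k a)

theorem wl_le_one (a : ℕ × ℕ) : wl a ≤ 1 :=
  le_of_tendsto (wk_tendsto a) (Eventually.of_forall fun k => wk_le_one k a)

theorem wl_harm (a : ℕ × ℕ) (ha : a ≠ (0, 0)) :
    wl a = 2 / 5 * wl (sig a) + 3 / 5 * avg wl a := by
  have h1 : Tendsto (fun k => wk (k + 1) a) atTop (𝓝 (wl a)) :=
    (wk_tendsto a).comp (tendsto_add_atTop_nat 1)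
  have h2 : Tendsto (fun k => 2 / 5 * wk k (sig a) + 3 / 5 * avg (wk k) a) atTop
      (𝓝 (2 / 5 * wl (sig a) + 3 / 5 * avg wl a)) := by
    refine ((wk_tendsto (sig a)).const_mul _).add (Tendsto.const_mul _ ?_)
    unfold avg
    exact (tendsto_finsetSum _ fun w _ => wk_tendsto w).div_const _
  have h3 : (fun k => wk (k + 1) a) =
      fun k => 2 / 5 * wk k (sig a) + 3 / 5 * avg (wk k) a := by
    funext k
    rw [wk]
    simp [ha]
  rw [h3] at h1
  exact tendsto_nhds_unique h1 h2

/-- the barrier -/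
noncomputable def psi (a : ℕ × ℕ) : ℝ :=
  if a.1 = 0 then 1 / 4 * (1 - (1 / 2 : ℝ) ^ a.2)
  else 1 / 4 * (1 - (1 / 2 : ℝ) ^ (a.1 + 4)) +
    (if a.2 < 3 * a.1 + 4 then (1 / 2 : ℝ) ^ a.2 else 0)

theorem psi_nonneg (a : ℕ × ℕ) : 0 ≤ psi a := by
  have h : ∀ k : ℕ, (1 / 2 : ℝ) ^ k ≤ 1 := fun k => pow_le_one₀ (by norm_num) (by norm_num)
  unfold psi
  split_ifs
  · have := h a.2
    linarith
  · have := h (a.1 + 4)
    have : (0 : ℝ) ≤ (1 / 2 : ℝ) ^ a.2 := by positivity
    linarith
  · have := h (a.1 + 4)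
    linarith

theorem psi_super (a : ℕ × ℕ) (ha : a.2 ≠ 0) :
    2 / 5 * psi (sig a) + 3 / 5 * avg psi a ≤ psi a := by
  obtain ⟨n, i⟩ := a
  obtain ⟨i, rfl⟩ : ∃ j, i = j + 1 := ⟨i - 1, by simp only at ha; omega⟩
  by_cases hn : n = 0
  · subst hn
    have e : ∀ j, psi (0, j) = 1 / 4 * (1 - (1 / 2 : ℝ) ^ j) := fun j => by simp [psi]
    have hs : sig (0, i + 1) = (0, i) := by simp [sig]
    rw [hs]
    by_cases hi : i + 1 = 3 * 0 + 4
    · have : i = 3 := by omega
      subst this
      have := avg_ray0 psi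
      rw [show ((0, 3 + 1) : ℕ × ℕ) = (0, 4) from rfl, this, e, e, e]
      have : psi (1, 7) = 1 / 4 * (1 - (1 / 2 : ℝ) ^ 5) := by
        unfold psi
        norm_num
      rw [this]
      norm_num
    · rw [avg_path psi 0 i hi, e, e, e]
      have : (0 : ℝ) < (1 / 2 : ℝ) ^ i := by positivity
      rw [pow_succ, pow_add]
      linarith
  · have e : ∀ m j, m ≠ 0 → psi (m, j) = 1 / 4 * (1 - (1 / 2 : ℝ) ^ (m + 4)) +
        (if j < 3 * m + 4 then (1 / 2 : ℝ) ^ j else 0) := fun m j hm => by simp [psi, hm]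
    have hp : ∀ k : ℕ, (0 : ℝ) < (1 / 2 : ℝ) ^ k := fun k => by positivity
    rcases lt_trichotomy (i + 1) (3 * n + 4) with hi | hi | hi
    · have hs : sig (n, i + 1) = (n, i + 2) := by
        unfold sig
        simp [hn, hi]
      rw [hs, avg_path psi n i hi.ne, e _ _ hn, e _ _ hn, e _ _ hn, if_pos hi,
        if_pos (show i < 3 * n + 4 by omega)]
      have h1 : (if i + 2 < 3 * n + 4 then (1 / 2 : ℝ) ^ (i + 2) else 0) ≤
          1 / 4 * (1 / 2 : ℝ) ^ i := by
        split_ifs
        · rw [pow_add]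
          linarith [hp i]
        · linarith [hp i]
      have h2 : (1 / 2 : ℝ) ^ (i + 1) = 1 / 2 * (1 / 2 : ℝ) ^ i := by rw [pow_succ]; ring
      rw [h2]
      linarith [hp i]
    · obtain ⟨k, rfl⟩ : ∃ k, n = k + 1 := ⟨n - 1, by omega⟩
      have hi' : i = 3 * (k + 1) + 3 := by omega
      subst hi'
      have hs : sig (k + 1, 3 * (k + 1) + 3 + 1) = (k, 3 * k + 4) := by
        unfold sig
        simp
      have hav := avg_ray psi k
      rw [hs, show 3 * (k + 1) + 3 + 1 = 3 * (k + 1) + 4 from rfl, hav]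
      have hk : psi (k, 3 * k + 4) = 1 / 4 * (1 - (1 / 2 : ℝ) ^ (k + 4)) := by
        by_cases hk0 : k = 0
        · subst hk0
          simp [psi]
        · rw [e _ _ hk0, if_neg (by omega)]
          ring
      rw [hk, e _ _ (Nat.succ_ne_zero k), e _ _ (Nat.succ_ne_zero k),
        e _ _ (Nat.succ_ne_zero (k + 1)), e _ _ (Nat.succ_ne_zero k),
        if_pos (by omega), if_neg (by omega), if_neg (by omega), if_neg (by omega)]
      have h1 : (1 / 2 : ℝ) ^ (k + 1 + 4) = 1 / 2 * (1 / 2 : ℝ) ^ (k + 4) := by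
        rw [show k + 1 + 4 = (k + 4) + 1 by ring, pow_succ]
        ring
      have h2 : (1 / 2 : ℝ) ^ (k + 2 + 4) = 1 / 4 * (1 / 2 : ℝ) ^ (k + 4) := by
        rw [show k + 2 + 4 = (k + 4) + 2 by ring, pow_add]
        ring
      have h3 : (1 / 2 : ℝ) ^ (3 * (k + 1) + 3) ≤ 1 / 4 * (1 / 2 : ℝ) ^ (k + 4) := by
        have e3 : (1 / 2 : ℝ) ^ (3 * (k + 1) + 3) =
            (1 / 2 : ℝ) ^ (k + 4) * ((1 / 2) ^ 2 * (1 / 2) ^ (2 * k)) := by
          rw [← pow_add, ← pow_add]
          congr 1
          ring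
        rw [e3]
        have : (1 / 2 : ℝ) ^ (2 * k) ≤ 1 := pow_le_one₀ (by norm_num) (by norm_num)
        nlinarith [hp (k + 4)]
      rw [show k + 1 + 1 + 4 = k + 2 + 4 from rfl, h1, h2]
      linarith [hp (k + 4)]
    · have hs : sig (n, i + 1) = (n, i) := by
        unfold sig
        simp only [hn, if_false]
        rw [if_neg (by omega), if_neg (by omega)]
        simp
      rw [hs, avg_path psi n i hi.ne', e _ _ hn, e _ _ hn, e _ _ hn, if_neg (by omega),
        if_neg (by omega), if_neg (by omega)]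
      linarith

/-- the height -/
noncomputable def eta (a : ℕ × ℕ) : ℝ :=
  if a.1 = 0 then a.2 else a.1 + 4 + |(a.2 : ℝ) - (3 * a.1 + 4)|

theorem eta_nonneg (a : ℕ × ℕ) : 0 ≤ eta a := by
  unfold eta
  split_ifs <;> positivity

theorem eta_super (a : ℕ × ℕ) (ha : a.2 ≠ 0) :
    2 / 5 * eta (sig a) + 3 / 5 * avg eta a ≤ eta a - 1 / 10 := by
  obtain ⟨n, i⟩ := a
  obtain ⟨i, rfl⟩ : ∃ j, i = j + 1 := ⟨i - 1, by simp only at ha; omega⟩
  by_cases hn : n = 0
  · subst hn
    have e : ∀ j : ℕ, eta (0, j) = j := fun j => by simp [eta]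
    have hs : sig (0, i + 1) = (0, i) := by simp [sig]
    rw [hs]
    by_cases hi : i + 1 = 3 * 0 + 4
    · have : i = 3 := by omega
      subst this
      have := avg_ray0 eta
      rw [show ((0, 3 + 1) : ℕ × ℕ) = (0, 4) from rfl, this, e, e, e]
      have : eta (1, 7) = 5 := by
        unfold eta
        norm_num
      rw [this]
      norm_num
    · rw [avg_path eta 0 i hi, e, e, e]
      push_cast
      linarith
  · have e : ∀ m j : ℕ, m ≠ 0 → eta (m, j) = m + 4 + |(j : ℝ) - (3 * m + 4)| :=
      fun m j hm => by simp [eta, hm]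
    rcases lt_trichotomy (i + 1) (3 * n + 4) with hi | hi | hi
    · have hs : sig (n, i + 1) = (n, i + 2) := by
        unfold sig
        simp [hn, hi]
      have hi' : (i : ℝ) + 2 ≤ 3 * n + 4 := by exact_mod_cast hi
      rw [hs, avg_path eta n i hi.ne, e _ _ hn, e _ _ hn, e _ _ hn]
      push_cast
      rw [abs_of_nonpos (by linarith), abs_of_nonpos (by linarith), abs_of_nonpos (by linarith)]
      linarith
    · obtain ⟨k, rfl⟩ : ∃ k, n = k + 1 := ⟨n - 1, by omega⟩
      have hi' : i = 3 * (k + 1) + 3 := by omega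
      subst hi'
      have hs : sig (k + 1, 3 * (k + 1) + 3 + 1) = (k, 3 * k + 4) := by
        unfold sig
        simp
      have hav := avg_ray eta k
      rw [hs, show 3 * (k + 1) + 3 + 1 = 3 * (k + 1) + 4 from rfl, hav]
      have hk : eta (k, 3 * k + 4) = k + 4 := by
        by_cases hk0 : k = 0
        · subst hk0
          simp [eta]
        · rw [e _ _ hk0]
          push_cast
          simp
      rw [hk, e _ _ (Nat.succ_ne_zero k), e _ _ (Nat.succ_ne_zero k),
        e _ _ (Nat.succ_ne_zero (k + 1)), e _ _ (Nat.succ_ne_zero k)]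
      push_cast
      rw [show (3 * ((k : ℝ) + 1) + 3 - (3 * (k + 1) + 4)) = -1 by ring,
        show (3 * ((k : ℝ) + 1) + 5 - (3 * (k + 1) + 4)) = 1 by ring,
        show (3 * ((k : ℝ) + 2) + 4 - (3 * (k + 1 + 1) + 4)) = 0 by ring,
        show (3 * ((k : ℝ) + 1) + 4 - (3 * (k + 1) + 4)) = 0 by ring]
      norm_num
      linarith
    · have hs : sig (n, i + 1) = (n, i) := by
        unfold sig
        simp only [hn, if_false]
        rw [if_neg (by omega), if_neg (by omega)]
        simp
      have hi' : (3 : ℝ) * n + 4 ≤ i := by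
        have : 3 * n + 4 ≤ i := by omega
        exact_mod_cast this
      rw [hs, avg_path eta n i hi.ne', e _ _ hn, e _ _ hn, e _ _ hn]
      push_cast
      rw [abs_of_nonneg (by linarith), abs_of_nonneg (by linarith), abs_of_nonneg (by linarith)]
      linarith

/-- maximum principle -/
theorem wl_le_psi (M : ℝ) (hM : 0 ≤ M) (h : ∀ n, wl (n + 1, 0) ≤ M) (a : ℕ × ℕ) :
    wl a ≤ M * psi a := by
  have key : ∀ ε : ℝ, 0 < ε → wl a ≤ M * psi a + ε * eta a := by
    intro ε hε
    by_contra hcon
    push Not at hcon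
    set f : ℕ × ℕ → ℝ := fun x => wl x - M * psi x - ε * eta x with hf
    have hfa : 0 < f a := by simp only [hf]; linarith
    have hfin : {x : ℕ × ℕ | 0 < f x}.Finite := by
      obtain ⟨N, hN⟩ := exists_nat_gt (1 / ε)
      refine Set.Finite.subset (Finset.finite_toSet (Finset.range N ×ˢ Finset.range (5 * N + 5))) ?_
      intro x hx
      have hx' : 0 < f x := hx
      have h1 : ε * eta x < 1 := by
        have := wl_le_one x
        have := mul_nonneg hM (psi_nonneg x)
        simp only [hf] at hx'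
        linarith
      have h2 : eta x < N := by
        refine lt_trans ?_ hN
        rw [lt_div_iff₀ hε]
        linarith
      obtain ⟨n, i⟩ := x
      simp only [Finset.coe_product, Set.mem_prod, Finset.coe_range, Set.mem_Iio]
      unfold eta at h2
      simp only at h2
      split_ifs at h2 with h3
      · have : i < N := by exact_mod_cast h2
        constructor
        · omega
        · omega
      · have h4 := abs_nonneg ((i : ℝ) - (3 * n + 4))
        have h5 := le_abs_self ((i : ℝ) - (3 * n + 4))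
        have h6 : (n : ℝ) < N := by linarith
        have h7 : (i : ℝ) < 5 * N + 5 := by linarith
        exact ⟨by exact_mod_cast h6, by exact_mod_cast h7⟩
    obtain ⟨x, hx, hmax⟩ := hfin.exists_maximalFor f _ ⟨a, hfa⟩
    have hx' : 0 < f x := hx
    have hall : ∀ y, f y ≤ f x := by
      intro y
      by_contra hy
      push Not at hy
      exact absurd (hmax (show 0 < f y from hx'.trans hy) hy.le) (not_le.mpr hy)
    have hx2 : x.2 ≠ 0 := by
      intro h0
      obtain ⟨n, i⟩ := x
      simp only at h0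
      subst h0
      rcases Nat.eq_zero_or_pos n with rfl | hn
      · simp only [hf, wl_root] at hx'
        have := mul_nonneg hM (psi_nonneg (0, 0))
        have := mul_nonneg hε.le (eta_nonneg (0, 0))
        linarith
      · obtain ⟨k, rfl⟩ : ∃ k, n = k + 1 := ⟨n - 1, by omega⟩
        have h1 := h k
        have h2 : 1 ≤ psi (k + 1, 0) := by
          unfold psi
          have : (1 / 2 : ℝ) ^ (k + 1 + 4) ≤ 1 := pow_le_one₀ (by norm_num) (by norm_num)
          simp only [Nat.succ_ne_zero, if_false, pow_zero]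
          rw [if_pos (by omega)]
          linarith
        have h3 := mul_nonneg hε.le (eta_nonneg (k + 1, 0))
        simp only [hf] at hx'
        nlinarith
    have hxr : x ≠ (0, 0) := by
      rintro rfl
      exact hx2 rfl
    have h1 := wl_harm x hxr
    have h2 := psi_super x hx2
    have h3 := eta_super x hx2
    have h4 := hall (sig x)
    have h5 : avg f x ≤ f x := avg_le f (f x) x fun w _ => hall w
    have h6 : avg f x = avg wl x - M * avg psi x - ε * avg eta x := by
      have e1 : f = fun w => (fun w => wl w + (-M) * psi w) w + (-ε) * eta w := by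
        funext w
        simp only [hf]
        ring
      rw [e1, avg_add (fun w => wl w + (-M) * psi w) (fun w => (-ε) * eta w), avg_add, avg_mul,
        avg_mul]
      ring
    rw [h6] at h5
    simp only [hf] at h4 h5
    have h2' := mul_le_mul_of_nonneg_left h2 hM
    have h3' := mul_le_mul_of_nonneg_left h3 hε.le
    nlinarith
  by_contra hcon
  push Not at hcon
  have h1 := eta_nonneg a
  have h2 : 0 < wl a - M * psi a := by linarith
  have h3 := key ((wl a - M * psi a) / (2 * (eta a + 1))) (by positivity)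
  have h4 : (wl a - M * psi a) / (2 * (eta a + 1)) * eta a ≤ (wl a - M * psi a) / 2 := by
    rw [div_mul_eq_mul_div, div_le_div_iff₀ (by positivity) (by norm_num)]
    nlinarith
  linarith

theorem psi_one (n : ℕ) : psi (n + 1, 1) ≤ 3 / 4 := by
  unfold psi
  simp only [Nat.succ_ne_zero, if_false]
  rw [if_pos (by omega)]
  have : (0 : ℝ) < (1 / 2 : ℝ) ^ (n + 1 + 4) := by positivity
  linarith

theorem wl_tree_step (M : ℝ) (hM : 0 ≤ M) (h : ∀ n, wl (n + 1, 0) ≤ M) (n : ℕ) :
    wl (n + 1, 0) ≤ 9 / 10 * M := by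
  have h1 := wl_harm (n + 1, 0) (by simp)
  have hs : sig (n + 1, 0) = (n + 1, 1) := by
    unfold sig
    simp
  have h2 : wl (n + 1, 1) ≤ 3 / 4 * M := by
    have := wl_le_psi M hM h (n + 1, 1)
    have := psi_one n
    nlinarith
  have h3 : avg wl (n + 1, 0) ≤ M := by
    refine avg_le wl M _ fun w hw => ?_
    obtain ⟨m, j⟩ := w
    by_cases hj : j = 0
    · subst hj
      rcases Nat.eq_zero_or_pos m with rfl | hm
      · rw [wl_root]
        exact hM
      · obtain ⟨k, rfl⟩ : ∃ k, m = k + 1 := ⟨m - 1, by omega⟩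
        exact h k
    · have hw' : m = n + 1 ∧ j = 1 := by
        rcases hw with h | h
        · rcases h with ⟨h1, h2⟩ | ⟨h1, h2, h3, h4⟩ | ⟨h1, h2, h3⟩
          · simp only at h1 h2
            omega
          · simp only at h2
            omega
          · simp only at h1
            omega
        · rcases h with ⟨h1, h2⟩ | ⟨h1, h2, h3, h4⟩ | ⟨h1, h2, h3⟩
          · simp only at h2
            omega
          · simp only at h1
            omega
          · simp only at h2
            omega
      rw [hw'.1, hw'.2]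
      linarith
  rw [h1, hs]
  linarith

theorem wl_tree (n : ℕ) : wl (n + 1, 0) = 0 := by
  have h : ∀ k : ℕ, ∀ n, wl (n + 1, 0) ≤ (9 / 10 : ℝ) ^ k := by
    intro k
    induction k with
    | zero => intro n; simpa using wl_le_one _
    | succ k ih =>
      intro n
      rw [pow_succ, mul_comm]
      exact wl_tree_step _ (by positivity) ih n
  refine le_antisymm ?_ (wl_nonneg _)
  refine ge_of_tendsto' (tendsto_pow_atTop_nhds_zero_of_lt_one (by norm_num) (by norm_num)) 
    (fun k => h k n)

end Pool.Agent.Q211.Tipsy
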