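import Mathlib

set_option autoImplicit false
open Finset

namespace Pool.Agent.Q211.Tipsy

/-- directed edges: vertical edges, tree edges (from a child to its parent), edges of the ray -/
def E (a b : ℕ × ℕ) : Prop :=
  (b.1 = a.1 ∧ b.2 = a.2 + 1) ∨ (a.2 = 0 ∧ b.2 = 0 ∧ a.1 ≠ 0 ∧ b.1 = (a.1 - 1) / 60) ∨
    (a.2 = 3 * a.1 + 4 ∧ b.2 = 3 * b.1 + 4 ∧ b.1 = a.1 + 1)

/-- the graph -/
def Gr : SimpleGraph (ℕ × ℕ) where
  Adj a b := E a b ∨ E b a
  symm := ⟨fun _ _ h => h.symm⟩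
  loopless := ⟨fun a h => by
    unfold E at h
    omega⟩

/-- the neighbours -/
def nb (a : ℕ × ℕ) : Finset (ℕ × ℕ) :=
  {(a.1, a.2 + 1)} ∪ (if a.2 ≠ 0 then {(a.1, a.2 - 1)} else ∅) ∪
    (if a.2 = 0 then (Icc (60 * a.1 + 1) (60 * a.1 + 60)).image (fun j => (j, 0)) else ∅) ∪
    (if a.2 = 0 ∧ a.1 ≠ 0 then {((a.1 - 1) / 60, 0)} else ∅) ∪
    (if a.2 = 3 * a.1 + 4 then {(a.1 + 1, 3 * (a.1 + 1) + 4)} else ∅) ∪
    (if a.2 = 3 * a.1 + 4 ∧ a.1 ≠ 0 then {(a.1 - 1, 3 * (a.1 - 1) + 4)} else ∅)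

theorem mem_nb (a b : ℕ × ℕ) : b ∈ nb a ↔ Gr.Adj a b := by
  obtain ⟨n, i⟩ := a
  obtain ⟨m, j⟩ := b
  unfold nb Gr E
  simp only [mem_union, mem_singleton, Prod.mk.injEq]
  have h1 : ((m, j) ∈ (if i ≠ 0 then ({(n, i - 1)} : Finset (ℕ × ℕ)) else ∅)) ↔
      (i ≠ 0 ∧ m = n ∧ j = i - 1) := by
    split_ifs with h <;> simp [h]
  have h2 : ((m, j) ∈ (if i = 0 then (Icc (60 * n + 1) (60 * n + 60)).image
      (fun j => ((j, 0) : ℕ × ℕ)) else ∅)) ↔
      (i = 0 ∧ j = 0 ∧ 60 * n + 1 ≤ m ∧ m ≤ 60 * n + 60) := by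
    split_ifs with h
    · simp only [mem_image, mem_Icc, Prod.mk.injEq, h, true_and]
      constructor
      · rintro ⟨a, ha, rfl, rfl⟩
        exact ⟨rfl, ha⟩
      · rintro ⟨rfl, ha⟩
        exact ⟨m, ha, rfl, rfl⟩
    · simp [h]
  have h3 : ((m, j) ∈ (if i = 0 ∧ n ≠ 0 then ({((n - 1) / 60, 0)} : Finset (ℕ × ℕ)) else ∅)) ↔
      (i = 0 ∧ n ≠ 0 ∧ m = (n - 1) / 60 ∧ j = 0) := by
    split_ifs with h <;> simp <;> tauto
  have h4 : ((m, j) ∈ (if i = 3 * n + 4 then ({(n + 1, 3 * (n + 1) + 4)} : Finset (ℕ × ℕ))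
      else ∅)) ↔ (i = 3 * n + 4 ∧ m = n + 1 ∧ j = 3 * (n + 1) + 4) := by
    split_ifs with h <;> simp [h]
  have h5 : ((m, j) ∈ (if i = 3 * n + 4 ∧ n ≠ 0 then
      ({(n - 1, 3 * (n - 1) + 4)} : Finset (ℕ × ℕ)) else ∅)) ↔
      (i = 3 * n + 4 ∧ n ≠ 0 ∧ m = n - 1 ∧ j = 3 * (n - 1) + 4) := by
    split_ifs with h <;> simp <;> tauto
  rw [h1, h2, h3, h4, h5]
  constructor
  · rintro (((((h | h) | h) | h) | h) | h)
    · left; left; exact h
    · right; left; omega
    · right; right; left; omega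
    · left; right; left; exact ⟨h.1, h.2.2.2, h.2.1, h.2.2.1⟩
    · left; right; right; omega
    · right; right; right; omega
  · rintro ((h | h | h) | (h | h | h))
    · left; left; left; left; left; exact h
    · left; left; right; exact ⟨h.1, h.2.2.1, h.2.2.2, h.2.1⟩
    · left; right; omega
    · left; left; left; left; right; omega
    · left; left; left; right; omega
    · right; omega

instance : Gr.LocallyFinite := fun a => Fintype.ofFinset (nb a) (fun b => by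
  rw [mem_nb, SimpleGraph.mem_neighborSet])

theorem nf_eq (a : ℕ × ℕ) : Gr.neighborFinset a = nb a := by
  ext b
  rw [SimpleGraph.mem_neighborFinset, mem_nb]

/-- average over the neighbours -/
noncomputable def avg (f : ℕ × ℕ → ℝ) (a : ℕ × ℕ) : ℝ :=
  (∑ w ∈ Gr.neighborFinset a, f w) / (Gr.degree a)

theorem avg_path (f : ℕ × ℕ → ℝ) (n i : ℕ) (h : i + 1 ≠ 3 * n + 4) :
    avg f (n, i + 1) = (f (n, i) + f (n, i + 2)) / 2 := by
  have e : Gr.neighborFinset (n, i + 1) = {(n, i), (n, i + 2)} := by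
    rw [nf_eq]
    unfold nb
    simp only [h, false_and, if_false, union_empty]
    ext ⟨a, b⟩
    simp
    omega
  unfold avg
  rw [← SimpleGraph.card_neighborFinset_eq_degree, e, sum_pair (by simp), card_pair (by simp)]
  norm_num

theorem avg_ray (f : ℕ × ℕ → ℝ) (n : ℕ) :
    avg f (n + 1, 3 * (n + 1) + 4) = (f (n + 1, 3 * (n + 1) + 3) + f (n + 1, 3 * (n + 1) + 5) +
      f (n + 2, 3 * (n + 2) + 4) + f (n, 3 * n + 4)) / 4 := by
  have e : Gr.neighborFinset (n + 1, 3 * (n + 1) + 4) =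
      {(n + 1, 3 * (n + 1) + 3), (n + 1, 3 * (n + 1) + 5), (n + 2, 3 * (n + 2) + 4),
        (n, 3 * n + 4)} := by
    rw [nf_eq]
    unfold nb
    ext ⟨a, b⟩
    simp
    omega
  unfold avg
  rw [← SimpleGraph.card_neighborFinset_eq_degree, e, sum_insert, sum_insert, sum_insert,
    sum_singleton, card_insert_of_notMem, card_insert_of_notMem, card_insert_of_notMem,
    card_singleton]
  · push_cast
    ring
  all_goals simp

theorem avg_ray0 (f : ℕ × ℕ → ℝ) :
    avg f (0, 4) = (f (0, 3) + f (0, 5) + f (1, 7)) / 3 := by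
  have e : Gr.neighborFinset (0, 4) = {(0, 3), (0, 5), (1, 7)} := by
    rw [nf_eq]
    unfold nb
    ext ⟨a, b⟩
    simp
    omega
  unfold avg
  rw [← SimpleGraph.card_neighborFinset_eq_degree, e, sum_insert, sum_insert,
    sum_singleton, card_insert_of_notMem, card_insert_of_notMem,
    card_singleton]
  · push_cast
    ring
  all_goals simp

theorem avg_tree (f : ℕ × ℕ → ℝ) (n : ℕ) :
    avg f (n + 1, 0) = (f (n / 60, 0) + f (n + 1, 1) +
      ∑ j ∈ Icc (60 * (n + 1) + 1) (60 * (n + 1) + 60), f (j, 0)) / 62 := by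
  have e : Gr.neighborFinset (n + 1, 0) = insert (n / 60, 0) (insert (n + 1, 1)
      ((Icc (60 * (n + 1) + 1) (60 * (n + 1) + 60)).image (fun j => (j, 0)))) := by
    rw [nf_eq]
    unfold nb
    ext ⟨a, b⟩
    simp only [mem_union, mem_insert, mem_singleton]
    simp
    tauto
  have hinj : Set.InjOn (fun j : ℕ => ((j, 0) : ℕ × ℕ))
      (Icc (60 * (n + 1) + 1) (60 * (n + 1) + 60) : Finset ℕ) := by
    intro a _ b _ hab
    simpa using hab
  have n1 : ((n + 1, 1) : ℕ × ℕ) ∉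
      (Icc (60 * (n + 1) + 1) (60 * (n + 1) + 60)).image (fun j => ((j, 0) : ℕ × ℕ)) := by
    simp
  have n2 : ((n / 60, 0) : ℕ × ℕ) ∉ insert ((n + 1, 1) : ℕ × ℕ)
      ((Icc (60 * (n + 1) + 1) (60 * (n + 1) + 60)).image (fun j => ((j, 0) : ℕ × ℕ))) := by
    simp only [mem_insert, Prod.mk.injEq, mem_image, mem_Icc]
    rintro (⟨h, _⟩ | ⟨a, ha, h, _⟩)
    · omega
    · omega
  unfold avg
  rw [← SimpleGraph.card_neighborFinset_eq_degree, e, sum_insert n2, sum_insert n1,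
    sum_image hinj, card_insert_of_notMem n2, card_insert_of_notMem n1, card_image_of_injOn hinj]
  simp only [Nat.card_Icc]
  have : 60 * (n + 1) + 60 + 1 - (60 * (n + 1) + 1) + 1 + 1 = 62 := by omega
  rw [this]
  push_cast
  ring

theorem degree_ne_zero (a : ℕ × ℕ) : Gr.degree a ≠ 0 := by
  rw [← SimpleGraph.card_neighborFinset_eq_degree, nf_eq]
  refine (card_pos.mpr ⟨(a.1, a.2 + 1), ?_⟩).ne'
  unfold nb
  simp

/-- monotonicity of the average -/
theorem avg_mono (f g : ℕ × ℕ → ℝ) (a : ℕ × ℕ) (h : ∀ w, Gr.Adj a w → f w ≤ g w) :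
    avg f a ≤ avg g a := by
  unfold avg
  refine div_le_div_of_nonneg_right (sum_le_sum fun w hw => h w ?_) (Nat.cast_nonneg _)
  rwa [SimpleGraph.mem_neighborFinset] at hw

theorem avg_const (c : ℝ) (a : ℕ × ℕ) : avg (fun _ => c) a = c := by
  unfold avg
  rw [sum_const, SimpleGraph.card_neighborFinset_eq_degree, nsmul_eq_mul]
  field_simp [degree_ne_zero a]

theorem avg_le (f : ℕ × ℕ → ℝ) (c : ℝ) (a : ℕ × ℕ) (h : ∀ w, Gr.Adj a w → f w ≤ c) :
    avg f a ≤ c := (avg_mono f (fun _ => c) a h).trans (avg_const c a).le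

theorem avg_nonneg (f : ℕ × ℕ → ℝ) (a : ℕ × ℕ) (h : ∀ w, 0 ≤ f w) : 0 ≤ avg f a :=
  div_nonneg (sum_nonneg fun w _ => h w) (Nat.cast_nonneg _)

theorem avg_add (f g : ℕ × ℕ → ℝ) (a : ℕ × ℕ) :
    avg (fun w => f w + g w) a = avg f a + avg g a := by
  unfold avg
  rw [sum_add_distrib, add_div]

theorem avg_mul (c : ℝ) (f : ℕ × ℕ → ℝ) (a : ℕ × ℕ) :
    avg (fun w => c * f w) a = c * avg f a := by
  unfold avg
  rw [← mul_sum, mul_div_assoc]

/-- connectedness -/
theorem gr_connected : Gr.Connected := by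
  have h1 : ∀ n i, Gr.Reachable (n, i) (n, 0) := by
    intro n i
    induction i with
    | zero => exact SimpleGraph.Reachable.refl _
    | succ i ih =>
      refine SimpleGraph.Reachable.trans (SimpleGraph.Adj.reachable ?_) ih
      right
      left
      simp
  have h2 : ∀ n, Gr.Reachable (n, 0) (0, 0) := by
    intro n
    induction n using Nat.strong_induction_on with
    | _ n ih =>
      rcases Nat.eq_zero_or_pos n with rfl | hn
      · exact SimpleGraph.Reachable.refl _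
      · refine SimpleGraph.Reachable.trans (SimpleGraph.Adj.reachable ?_)
          (ih ((n - 1) / 60) (by omega))
        left
        right
        left
        exact ⟨rfl, rfl, hn.ne', rfl⟩
  refine (SimpleGraph.connected_iff _).mpr ⟨fun a b => ?_, ⟨(0, 0)⟩⟩
  exact ((h1 a.1 a.2).trans (h2 a.1)).trans ((h1 b.1 b.2).trans (h2 b.1)).symm

end Pool.Agent.Q211.Tipsy
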