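import Pool.Agent.Q211.Tipsy.Defs

set_option autoImplicit false
open scoped Classical ENNReal NNReal
open MeasureTheory

namespace Pool.Agent.Q211.Tipsy

variable {V : Type} {G : SimpleGraph V} [G.LocallyFinite]

/-- the cop has not won up to time `n` -/
def alive {Ω : Type} (X : ℕ → Ω → V × V) (n : ℕ) : Set Ω :=
  {ω | ∀ i ≤ n, (X i ω).1 ≠ (X i ω).2}

section

variable {c r tc tr : ℝ≥0} {cs rs : ℕ → V → V → V} {u0 v0 : V}
  {Ω : Type} [MeasurableSpace Ω] {P : Measure Ω} {X : ℕ → Ω → V × V}

theorem IsGame.measSet (h : IsGame G c r tc tr cs rs u0 v0 P X) (n : ℕ) :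
    MeasurableSet (alive X n) := by
  have : alive X n = ⋂ i ∈ Finset.range (n + 1), X i ⁻¹' {p | p.1 ≠ p.2} := by
    ext ω
    simp [alive]
  rw [this]
  exact Finset.measurableSet_biInter _ fun i _ => h.meas i _

/-- integral over a set of a function of a countably valued variable -/
theorem lintegral_count [Countable V] {Y : Ω → V × V} (hY : ∀ A : Set (V × V), MeasurableSet (Y ⁻¹' A))
    (F : V × V → ℝ≥0∞) (S : Set Ω) :
    ∫⁻ ω in S, F (Y ω) ∂P = ∑' y, F y * P {ω | ω ∈ S ∧ Y ω = y} := by
  let _ : MeasurableSpace (V × V) := ⊤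
  have hYm : Measurable Y := fun A _ => hY A
  have e : ∫⁻ ω in S, F (Y ω) ∂P = ∫⁻ y, F y ∂((P.restrict S).map Y) := by
    rw [lintegral_map measurable_from_top hYm]
  rw [e]
  have : MeasurableSingletonClass (V × V) := ⟨fun _ => trivial⟩
  rw [lintegral_countable']
  refine tsum_congr fun y => ?_
  congr 1
  rw [Measure.map_apply hYm trivial, Measure.restrict_apply (hY _)]
  congr 1
  ext ω
  simp [and_comm]

theorem IsGame.step_lintegral [Countable V] (h : IsGame G c r tc tr cs rs u0 v0 P X) (n : ℕ)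
    (F : V × V → ℝ≥0∞) :
    ∫⁻ ω in alive X n, F (X (n + 1) ω) ∂P =
      ∫⁻ ω in alive X n, (∑' y, stepProb G c r tc tr (cs n) (rs n) (X n ω) y * F y) ∂P := by
  rw [lintegral_count (h.meas (n + 1)) F _,
    lintegral_count (h.meas n) (fun x => ∑' y, stepProb G c r tc tr (cs n) (rs n) x y * F y) _]
  have key : ∀ y, P {ω | ω ∈ alive X n ∧ X (n + 1) ω = y} =
      ∑' x, P {ω | ω ∈ alive X n ∧ X n ω = x} * stepProb G c r tc tr (cs n) (rs n) x y := by
    intro y
    have hst := h.step n {g | ∀ i ≤ n, (g i).1 ≠ (g i).2} (by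
      intro g g' hg
      simp only [Set.mem_ofPred_eq]
      exact forall₂_congr fun i hi => by rw [hg i hi])
    have e2 : ∀ x, P {ω | ω ∈ alive X n ∧ X n ω = x} * stepProb G c r tc tr (cs n) (rs n) x y =
        P {ω | (ω ∈ alive X n ∧ X (n + 1) ω = y) ∧ X n ω = x} := by
      intro x
      rw [show {ω | (ω ∈ alive X n ∧ X (n + 1) ω = y) ∧ X n ω = x} =
        {ω | (fun i => X i ω) ∈ {g : ℕ → V × V | ∀ i ≤ n, (g i).1 ≠ (g i).2} ∧ X n ω = x ∧
          X (n + 1) ω = y} by
          ext ω
          simp only [alive, Set.mem_ofPred_eq]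
          tauto, hst x y]
      rfl
    simp_rw [e2]
    have hm : MeasurableSet {ω | ω ∈ alive X n ∧ X (n + 1) ω = y} :=
      (h.measSet n).inter (h.meas (n + 1) {y})
    rw [← measure_iUnion]
    · congr 1
      ext ω
      simp
    · intro a b hab
      refine Set.disjoint_left.mpr fun ω ha hb => hab ?_
      exact ha.2.symm.trans hb.2
    · intro x
      exact hm.inter (h.meas n {x})
  simp_rw [key, ← ENNReal.tsum_mul_left, ← ENNReal.tsum_mul_right]
  rw [ENNReal.tsum_comm]
  refine tsum_congr fun x => tsum_congr fun y => ?_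
  ring

/-- the step operator when the robber never moves -/
theorem tsum_static (c tc : ℝ≥0) (cs rs : V → V → V) (u v : V) (F : V × V → ℝ≥0∞) :
    ∑' y, stepProb G c 0 tc 0 cs rs (u, v) y * F y =
      c * F (cs u v, v) + tc * ((G.degree u : ℝ≥0∞)⁻¹ * ∑ w ∈ G.neighborFinset u, F (w, v)) := by
  have e : ∀ y : V × V, stepProb G c 0 tc 0 cs rs (u, v) y * F y =
      (if y = (cs u v, v) then (c : ℝ≥0∞) * F y else 0) +
      (if y.2 = v ∧ G.Adj u y.1 then (tc : ℝ≥0∞) * ((G.degree u : ℝ≥0∞)⁻¹ * F y) else 0) := by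
    intro y
    unfold stepProb
    simp only [ENNReal.coe_zero, zero_mul, add_zero]
    split_ifs <;> simp [add_mul, mul_assoc]
  simp_rw [e]
  rw [ENNReal.tsum_add]
  congr 1
  · rw [tsum_ite_eq]
  · have hs : (∑ w ∈ G.neighborFinset u, F (w, v)) =
        ∑ y ∈ (G.neighborFinset u).map ⟨fun w => (w, v), fun a b h => by simpa using h⟩, F y := by
      rw [Finset.sum_map]
      rfl
    rw [hs, Finset.mul_sum, Finset.mul_sum]
    rw [tsum_eq_sum (s := (G.neighborFinset u).map
      ⟨fun w => (w, v), fun a b h => by simpa using h⟩)]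
    · refine Finset.sum_congr rfl fun y hy => ?_
      rw [Finset.mem_map] at hy
      obtain ⟨w, hw, rfl⟩ := hy
      rw [SimpleGraph.mem_neighborFinset] at hw
      rw [if_pos ⟨rfl, hw⟩]
    · intro y hy
      rw [if_neg]
      rintro ⟨h1, h2⟩
      apply hy
      rw [Finset.mem_map]
      exact ⟨y.1, (SimpleGraph.mem_neighborFinset _ _ _).mpr h2, by rw [← h1]; rfl⟩

/-- superharmonic functions bound the probability that the cop wins (static robber) -/
theorem IsGame.prob_le [Countable V] [IsProbabilityMeasure P]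
    (h : IsGame G c 0 tc 0 cs rs u0 v0 P X) (F : V × V → ℝ≥0∞)
    (hF1 : ∀ v, 1 ≤ F (v, v))
    (hsup : ∀ n u v, u ≠ v → c * F (cs n u v, v) +
      tc * ((G.degree u : ℝ≥0∞)⁻¹ * ∑ w ∈ G.neighborFinset u, F (w, v)) ≤ F (u, v)) :
    P {ω | ∃ s, (X s ω).1 = (X s ω).2} ≤ F (u0, v0) := by
  have hB : ∀ n, P (alive X n)ᶜ + ∫⁻ ω in alive X n, F (X n ω) ∂P ≤ F (u0, v0) := by
    intro n
    induction n with
    | zero =>
      have h1 : P (alive X 0)ᶜ ≤ ∫⁻ ω in (alive X 0)ᶜ, F (X 0 ω) ∂P := by
        rw [← setLIntegral_one]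
        refine setLIntegral_mono' (h.measSet 0).compl fun ω hω => ?_
        simp only [alive, Set.mem_compl_iff, Set.mem_ofPred_eq, Nat.le_zero, forall_eq,
          not_not] at hω
        have : X 0 ω = ((X 0 ω).1, (X 0 ω).1) := Prod.ext rfl hω.symm
        rw [this]
        exact hF1 _
      calc P (alive X 0)ᶜ + ∫⁻ ω in alive X 0, F (X 0 ω) ∂P
          ≤ (∫⁻ ω in (alive X 0)ᶜ, F (X 0 ω) ∂P) + ∫⁻ ω in alive X 0, F (X 0 ω) ∂P := by
            gcongr
        _ = ∫⁻ ω, F (X 0 ω) ∂P := by
            rw [add_comm, lintegral_add_compl _ (h.measSet 0)]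
        _ = ∫⁻ _, F (u0, v0) ∂P := by
            refine lintegral_congr_ae ?_
            filter_upwards [h.init] with ω hω
            rw [hω]
        _ = F (u0, v0) := by simp
    | succ n ih =>
      refine le_trans ?_ ih
      have hsub : alive X (n + 1) ⊆ alive X n := fun ω hω i hi => hω i (by omega)
      set D : Set Ω := alive X n \ alive X (n + 1) with hD
      have hDm : MeasurableSet D := (h.measSet n).diff (h.measSet (n + 1))
      have h1 : P (alive X (n + 1))ᶜ ≤ P (alive X n)ᶜ + P D := by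
        refine le_trans (measure_mono ?_) (measure_union_le _ _)
        intro ω hω
        by_cases hn : ω ∈ alive X n
        · right
          exact ⟨hn, hω⟩
        · left
          exact hn
      have h2 : P D ≤ ∫⁻ ω in D, F (X (n + 1) ω) ∂P := by
        rw [← setLIntegral_one]
        refine setLIntegral_mono' hDm fun ω hω => ?_
        have : (X (n + 1) ω).1 = (X (n + 1) ω).2 := by
          by_contra hne
          apply hω.2
          intro i hi
          rcases Nat.lt_or_ge i (n + 1) with hlt | hge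
          · exact hω.1 i (by omega)
          · have : i = n + 1 := by omega
            rw [this]
            exact hne
        have e : X (n + 1) ω = ((X (n + 1) ω).1, (X (n + 1) ω).1) := Prod.ext rfl this.symm
        rw [e]
        exact hF1 _
      have h3 : (∫⁻ ω in D, F (X (n + 1) ω) ∂P) + ∫⁻ ω in alive X (n + 1), F (X (n + 1) ω) ∂P =
          ∫⁻ ω in alive X n, F (X (n + 1) ω) ∂P := by
        rw [← lintegral_union (h.measSet (n + 1))]
        · congr 2
          rw [hD]
          exact Set.sdiff_union_of_subset hsub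
        · exact Set.disjoint_sdiff_left
      have h4 : ∫⁻ ω in alive X n, F (X (n + 1) ω) ∂P ≤ ∫⁻ ω in alive X n, F (X n ω) ∂P := by
        rw [h.step_lintegral]
        refine setLIntegral_mono' (h.measSet n) fun ω hω => ?_
        have hne : (X n ω).1 ≠ (X n ω).2 := hω n le_rfl
        have := tsum_static (G := G) c tc (cs n) (rs n) (X n ω).1 (X n ω).2 F
        rw [show X n ω = ((X n ω).1, (X n ω).2) from rfl, this]
        exact hsup n _ _ hne
      calc P (alive X (n + 1))ᶜ + ∫⁻ ω in alive X (n + 1), F (X (n + 1) ω) ∂P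
          ≤ (P (alive X n)ᶜ + ∫⁻ ω in D, F (X (n + 1) ω) ∂P) +
            ∫⁻ ω in alive X (n + 1), F (X (n + 1) ω) ∂P := by
            gcongr
            exact h1.trans (by gcongr)
        _ = P (alive X n)ᶜ + ∫⁻ ω in alive X n, F (X (n + 1) ω) ∂P := by
            rw [add_assoc, h3]
        _ ≤ P (alive X n)ᶜ + ∫⁻ ω in alive X n, F (X n ω) ∂P := by gcongr
  have hU : {ω | ∃ s, (X s ω).1 = (X s ω).2} = ⋃ n, (alive X n)ᶜ := by
    ext ω
    simp only [Set.mem_ofPred_eq, Set.mem_iUnion, Set.mem_compl_iff, alive]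
    constructor
    · rintro ⟨s, hs⟩
      exact ⟨s, fun hh => hh s le_rfl hs⟩
    · rintro ⟨n, hn⟩
      push Not at hn
      obtain ⟨i, _, hi⟩ := hn
      exact ⟨i, hi⟩
  rw [hU, Monotone.measure_iUnion]
  · exact iSup_le fun n => le_trans le_self_add (hB n)
  · intro a b hab
    refine Set.compl_subset_compl.mpr fun ω hω i hi => hω i (hi.trans hab)

/-- upper bound for the probability that the cop has not won (static robber) -/
theorem IsGame.alive_le [Countable V] [IsProbabilityMeasure P]
    (h : IsGame G c 0 tc 0 cs rs u0 v0 P X) (W : ℕ → V × V → ℝ≥0∞)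
    (hW0 : ∀ u v, u ≠ v → 1 ≤ W 0 (u, v))
    (hW : ∀ k n u v, u ≠ v → c * W k (cs n u v, v) +
      tc * ((G.degree u : ℝ≥0∞)⁻¹ * ∑ w ∈ G.neighborFinset u, W k (w, v)) ≤ W (k + 1) (u, v))
    (n : ℕ) : P (alive X n) ≤ W n (u0, v0) := by
  have key : ∀ m k, ∫⁻ ω in alive X m, W k (X m ω) ∂P ≤ W (k + m) (u0, v0) := by
    intro m
    induction m with
    | zero =>
      intro k
      calc ∫⁻ ω in alive X 0, W k (X 0 ω) ∂P ≤ ∫⁻ ω, W k (X 0 ω) ∂P :=
            setLIntegral_le_lintegral _ _
        _ = ∫⁻ _, W k (u0, v0) ∂P := by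
            refine lintegral_congr_ae ?_
            filter_upwards [h.init] with ω hω
            rw [hω]
        _ = W (k + 0) (u0, v0) := by simp
    | succ m ih =>
      intro k
      have hsub : alive X (m + 1) ⊆ alive X m := fun ω hω i hi => hω i (by omega)
      calc ∫⁻ ω in alive X (m + 1), W k (X (m + 1) ω) ∂P
          ≤ ∫⁻ ω in alive X m, W k (X (m + 1) ω) ∂P := lintegral_mono_set hsub
        _ ≤ ∫⁻ ω in alive X m, W (k + 1) (X m ω) ∂P := by
            rw [h.step_lintegral]
            refine setLIntegral_mono' (h.measSet m) fun ω hω => ?_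
            have hne : (X m ω).1 ≠ (X m ω).2 := hω m le_rfl
            have := tsum_static (G := G) c tc (cs m) (rs m) (X m ω).1 (X m ω).2 (W k)
            rw [show X m ω = ((X m ω).1, (X m ω).2) from rfl, this]
            exact hW k m _ _ hne
        _ ≤ W (k + 1 + m) (u0, v0) := ih (k + 1)
        _ = W (k + (m + 1)) (u0, v0) := by rw [show k + 1 + m = k + (m + 1) by omega]
  calc P (alive X n) = ∫⁻ _ in alive X n, 1 ∂P := by rw [setLIntegral_one]
    _ ≤ ∫⁻ ω in alive X n, W 0 (X n ω) ∂P := by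
        refine setLIntegral_mono' (h.measSet n) fun ω hω => ?_
        exact hW0 _ _ (hω n le_rfl)
    _ ≤ W (0 + n) (u0, v0) := key n 0
    _ = W n (u0, v0) := by rw [zero_add]

end

end Pool.Agent.Q211.Tipsy
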